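import Pool.Agent.Run7.h16.UP.Aut
import Pool.Agent.H391R2.WrGrp
import Pool.Agent.Y419.DC.CF

/-!
# The base group of `T ≀ S_n` is characteristic if `n ≥ 5`
-/

set_option autoImplicit false

namespace Run7.h16.UP

open Equiv Equiv.Perm
open Pool.Agent.H391R2 (Wr)
open Pool.Agent.Y60.DC (CompIn)

/-- Only the identity commutes with all even permutations. -/
theorem eq_one_of_cent {n : ℕ} (hn : 5 ≤ n) (r : Perm (Fin n))
    (h : ∀ g ∈ alternatingGroup (Fin n), r * g = g * r) : r = 1 := by
  ext1 x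
  by_contra hx
  set y := r x with hy
  have hxy : y ≠ x := hx
  obtain ⟨z, hz⟩ : ∃ z : Fin n, z ∉ ({x, y} : Finset (Fin n)) := by
    by_contra h
    push Not at h
    have h1 : (Finset.univ : Finset (Fin n)) ⊆ {x, y} := fun l _ => h l
    have h2 := (Finset.card_le_card h1).trans Finset.card_le_two
    rw [Finset.card_univ, Fintype.card_fin] at h2
    omega
  obtain ⟨w, hw⟩ : ∃ w : Fin n, w ∉ ({x, y, z} : Finset (Fin n)) := by
    by_contra h
    push Not at h
    have h1 : (Finset.univ : Finset (Fin n)) ⊆ {x, y, z} := fun l _ => h l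
    have h2 := (Finset.card_le_card h1).trans Finset.card_le_three
    rw [Finset.card_univ, Fintype.card_fin] at h2
    omega
  simp only [Finset.mem_insert, Finset.mem_singleton, not_or] at hz hw
  obtain ⟨hzx, hzy⟩ := hz
  obtain ⟨hwx, hwy, hwz⟩ := hw
  have hmem : swap y z * swap z w ∈ alternatingGroup (Fin n) := by
    rw [mem_alternatingGroup, Equiv.Perm.sign_mul, sign_swap (Ne.symm hzy), sign_swap (Ne.symm hwz)]
    decide
  have h1 := congrArg (fun u : Perm (Fin n) => u x) (h _ hmem)
  simp only [Perm.mul_apply] at h1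
  rw [swap_apply_of_ne_of_ne (Ne.symm hzx) (Ne.symm hwx),
    swap_apply_of_ne_of_ne (Ne.symm hxy) (Ne.symm hzx), ← hy,
    swap_apply_of_ne_of_ne (Ne.symm hzy) (Ne.symm hwy), swap_apply_left] at h1
  exact hzy h1.symm

theorem hom_trivial {n : ℕ} (hn : 5 ≤ n) {T : Type} [Group T]
    (ψ : (Fin n → T) →* Perm (Fin n)) (hψ : ψ.range.Normal)
    (hperm : ∀ (s : Perm (Fin n)) (x y : Fin n → T), (∀ i, y i = x (s⁻¹ i)) → ψ x = 1 → ψ y = 1) :
    ∀ x, ψ x = 1 := by
  classical
  by_contra hne
  push Not at hne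
  obtain ⟨x₀, hx₀⟩ := hne
  have hcard : Nat.card (Fin n) = n := by rw [Nat.card_eq_fintype_card, Fintype.card_fin]
  have hnt : Nontrivial ψ.range := ⟨⟨⟨ψ x₀, ⟨x₀, rfl⟩⟩, 1, fun h => hx₀ (congrArg Subtype.val h)⟩⟩
  have hA : alternatingGroup (Fin n) ≤ ψ.range :=
    alternatingGroup_le_of_normal (by rw [hcard]; exact hn) hnt
  -- a coordinate
  obtain ⟨i, t, ht⟩ : ∃ (i : Fin n) (t : T), ψ (Pi.mulSingle i t) ≠ 1 := by
    by_contra hall
    push Not at hall
    apply hx₀
    have h1 : ψ = 1 := by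
      refine MonoidHom.pi_ext fun i t => ?_
      rw [hall i t]
      rfl
    rw [h1]
    rfl
  let R : Subgroup (Perm (Fin n)) := (ψ.comp (MonoidHom.mulSingle (fun _ : Fin n => T) i)).range
  have hRn : ∀ g ∈ alternatingGroup (Fin n), ∀ r ∈ R, g * r * g⁻¹ ∈ R := by
    rintro g hg _ ⟨s, rfl⟩
    obtain ⟨y, rfl⟩ := hA hg
    refine ⟨y i * s * (y i)⁻¹, ?_⟩
    change ψ (Pi.mulSingle i (y i * s * (y i)⁻¹)) = ψ y * ψ (Pi.mulSingle i s) * (ψ y)⁻¹
    rw [← map_mul, ← map_inv, ← map_mul]
    congr 1
    funext j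
    by_cases hj : j = i
    · subst hj
      simp
    · simp [Pi.mulSingle_eq_of_ne hj]
  have hsim : IsSimpleGroup (alternatingGroup (Fin n)) :=
    alternatingGroup.isSimpleGroup (by rw [hcard]; exact hn)
  let Q : Subgroup (alternatingGroup (Fin n)) := R.subgroupOf (alternatingGroup (Fin n))
  have hQ : Q.Normal := by
    refine ⟨fun r hr g => ?_⟩
    rw [Subgroup.mem_subgroupOf] at hr ⊢
    exact hRn g g.2 _ hr
  apply ht
  rcases hsim.eq_bot_or_eq_top_of_normal Q hQ with h1 | h1
  · -- `R` commutes with the alternating group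
    refine eq_one_of_cent hn _ fun g hg => ?_
    have hr : ψ (Pi.mulSingle i t) ∈ R := ⟨t, rfl⟩
    set r := ψ (Pi.mulSingle i t) with hrdef
    have h2 : r * (g * r⁻¹ * g⁻¹) ∈ R := R.mul_mem hr (hRn g hg _ (R.inv_mem hr))
    have h3 : r * (g * r⁻¹ * g⁻¹) ∈ alternatingGroup (Fin n) := by
      rw [mem_alternatingGroup, Equiv.Perm.sign_mul, Equiv.Perm.sign_mul, Equiv.Perm.sign_mul,
        sign_inv, sign_inv]
      rcases Int.units_eq_one_or (sign r) with h | h <;>
        rcases Int.units_eq_one_or (sign g) with h' | h' <;> rw [h, h'] <;> decide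
    have h4 : (⟨_, h3⟩ : alternatingGroup (Fin n)) ∈ Q := by
      rw [Subgroup.mem_subgroupOf]
      exact h2
    rw [h1, Subgroup.mem_bot] at h4
    have h5 : r * (g * r⁻¹ * g⁻¹) = 1 := congrArg Subtype.val h4
    calc r * g = r * (g * r⁻¹ * g⁻¹) * (g * r) := by group
      _ = g * r := by rw [h5, one_mul]
  · -- the other coordinates commute with the alternating group
    have h2 : alternatingGroup (Fin n) ≤ R := Subgroup.subgroupOf_eq_top.1 h1
    obtain ⟨j, hj⟩ : ∃ j : Fin n, j ≠ i := by
      have hntr : Nontrivial (Fin n) := ⟨⟨⟨0, by omega⟩, ⟨1, by omega⟩, by simp⟩⟩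
      exact exists_ne i
    have h3 : ψ (Pi.mulSingle j t) = 1 := by
      refine eq_one_of_cent hn _ fun g hg => ?_
      obtain ⟨s, rfl⟩ := h2 hg
      change ψ (Pi.mulSingle j t) * ψ (Pi.mulSingle i s) = ψ (Pi.mulSingle i s) * ψ (Pi.mulSingle j t)
      rw [← map_mul, ← map_mul]
      congr 1
      exact Pi.mulSingle_commute (f := fun _ : Fin n => T) hj t s
    refine hperm (swap i j) _ _ (fun l => ?_) h3
    rw [swap_inv]
    by_cases hl : l = i
    · subst hl
      rw [swap_apply_left, Pi.mulSingle_eq_same, Pi.mulSingle_eq_same]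
    · by_cases hl' : l = j
      · subst hl'
        rw [swap_apply_right, Pi.mulSingle_eq_of_ne hl, Pi.mulSingle_eq_of_ne (Ne.symm hl)]
      · rw [swap_apply_of_ne_of_ne hl hl', Pi.mulSingle_eq_of_ne hl, Pi.mulSingle_eq_of_ne hl']

/-- **The base group is characteristic.** -/
theorem base_char {n : ℕ} (hn : 5 ≤ n) {T : Type} [Group T] :
    (SemidirectProduct.rightHom : Wr T n →* Perm (Fin n)).ker.Characteristic := by
  rw [Subgroup.characteristic_iff_map_le]
  intro φ
  let ψ : (Fin n → T) →* Perm (Fin n) :=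
    (SemidirectProduct.rightHom : Wr T n →* Perm (Fin n)).comp
      (φ.toMonoidHom.comp SemidirectProduct.inl)
  have hψ : ψ.range.Normal := by
    refine ⟨?_⟩
    rintro _ ⟨x, rfl⟩ s
    let w : Wr T n := φ.symm (SemidirectProduct.inr s)
    have hker : w * SemidirectProduct.inl x * w⁻¹ ∈
        (SemidirectProduct.rightHom : Wr T n →* Perm (Fin n)).ker := by
      rw [MonoidHom.mem_ker, map_mul, map_mul, map_inv, SemidirectProduct.rightHom_inl, mul_one,
        mul_inv_cancel]
    rw [← SemidirectProduct.range_inl_eq_ker_rightHom] at hker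
    obtain ⟨y, hy⟩ := hker
    refine ⟨y, ?_⟩
    change SemidirectProduct.rightHom (φ (SemidirectProduct.inl y)) = s * ψ x * s⁻¹
    have hφw : φ w = SemidirectProduct.inr s := φ.apply_symm_apply _
    have e1 : φ (w * SemidirectProduct.inl x * w⁻¹) =
        SemidirectProduct.inr s * φ (SemidirectProduct.inl x) * (SemidirectProduct.inr s)⁻¹ := by
      rw [map_mul, map_mul, map_inv, hφw]
    rw [hy, e1, map_mul, map_mul, map_inv, SemidirectProduct.rightHom_inr]
    rfl
  have hperm : ∀ (s : Perm (Fin n)) (x y : Fin n → T), (∀ i, y i = x (s⁻¹ i)) →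
      ψ x = 1 → ψ y = 1 := by
    intro s x y hxy hx
    have e2 : (SemidirectProduct.inl y : Wr T n) =
        SemidirectProduct.inr s * SemidirectProduct.inl x * SemidirectProduct.inr s⁻¹ := by
      rw [← SemidirectProduct.inl_aut]
      congr 1
      funext i
      exact hxy i
    change SemidirectProduct.rightHom (φ (SemidirectProduct.inl y)) = 1
    have hx' : SemidirectProduct.rightHom (φ (SemidirectProduct.inl x)) = 1 := hx
    rw [e2, map_mul, map_mul, map_mul, map_mul, hx', mul_one, ← map_mul, ← map_mul, ← map_mul,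
      mul_inv_cancel, map_one, map_one, map_one]
  have h1 := hom_trivial hn ψ hψ hperm
  rintro _ ⟨w, hw, rfl⟩
  have hw' : w ∈ (SemidirectProduct.inl : (Fin n → T) →* Wr T n).range := by
    rw [SemidirectProduct.range_inl_eq_ker_rightHom]
    exact hw
  obtain ⟨x, rfl⟩ := hw'
  rw [MonoidHom.mem_ker]
  exact h1 x

/-! ### Composition factors of extensions and powers -/

variable {S : ∀ (T : Type) [Group T], Prop}

theorem compIn_extn (hiso : ∀ (T T' : Type) [Group T] [Group T'], Nonempty (T ≃* T') → S T → S T')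
    (hsim : ∀ (T : Type) [Group T], S T → IsSimpleGroup T) {B : Type} [iB : Group B]
    (hB : CompIn S B) : ∀ (A : Type) [Group A] (f : A →* B), Function.Surjective f →
      CompIn S f.ker → CompIn S A := by
  induction hB with
  | one B h =>
    intro A _ f _ hk
    exact Pool.Agent.Y419.DC.quot hiso hsim hk A f.ker.subtype
      (fun a => ⟨⟨a, Subsingleton.elim _ _⟩, rfl⟩)
  | ext B M hM hS ih =>
    intro A _ f hf hk
    let g : A →* B ⧸ M := (QuotientGroup.mk' M).comp f
    have hg : Function.Surjective g := (QuotientGroup.mk'_surjective M).comp hf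
    have hgM : ∀ x : g.ker, f x ∈ M := fun x => (QuotientGroup.eq_one_iff _).1 x.2
    let f' : g.ker →* M := (f.comp g.ker.subtype).codRestrict M hgM
    have hf' : Function.Surjective f' := by
      rintro ⟨m, hm⟩
      obtain ⟨a, rfl⟩ := hf m
      exact ⟨⟨a, (QuotientGroup.eq_one_iff _).2 hm⟩, rfl⟩
    have hfg : ∀ x : f.ker, (x : A) ∈ g.ker := fun x => by
      rw [MonoidHom.mem_ker]
      change (QuotientGroup.mk' M) (f x) = 1
      have h1 : f x = 1 := x.2
      rw [h1, map_one]
    let q0 : f.ker →* g.ker := f.ker.subtype.codRestrict g.ker hfg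
    let q : f.ker →* f'.ker := q0.codRestrict f'.ker (fun x => by
      rw [MonoidHom.mem_ker]
      exact Subtype.ext x.2)
    have hq : Function.Surjective q := by
      rintro ⟨⟨a, ha⟩, ha'⟩
      exact ⟨⟨a, congrArg Subtype.val ha'⟩, rfl⟩
    exact Pool.Agent.Y419.DC.ext' hiso g hg
      (ih g.ker f' hf' (Pool.Agent.Y419.DC.quot hiso hsim hk _ q hq)) hS

theorem compIn_pow (hiso : ∀ (T T' : Type) [Group T] [Group T'], Nonempty (T ≃* T') → S T → S T')
    (hsim : ∀ (T : Type) [Group T], S T → IsSimpleGroup T) {T : Type} [Group T]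
    (hT : CompIn S T) : ∀ n : ℕ, CompIn S (Fin n → T) := by
  intro n
  induction n with
  | zero => exact CompIn.one _ ⟨fun a b => funext fun i => i.elim0⟩
  | succ n ih =>
    let f : (Fin (n + 1) → T) →* (Fin n → T) :=
      { toFun := fun x i => x i.succ
        map_one' := rfl
        map_mul' := fun x y => rfl }
    have hf : Function.Surjective f := fun y =>
      ⟨(Fin.cons (1 : T) y : Fin (n + 1) → T), by
        funext i
        change (Fin.cons (1 : T) y : Fin (n + 1) → T) i.succ = y i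
        exact Fin.cons_succ _ _ _⟩
    refine compIn_extn hiso hsim ih _ f hf ?_
    let q : T →* f.ker := (MonoidHom.mulSingle (fun _ : Fin (n + 1) => T) 0).codRestrict f.ker
      (fun t => by
        rw [MonoidHom.mem_ker]
        funext i
        exact Pi.mulSingle_eq_of_ne (M := fun _ : Fin (n + 1) => T) (Fin.succ_ne_zero i) t)
    refine Pool.Agent.Y419.DC.quot hiso hsim hT _ q ?_
    rintro ⟨x, hx⟩
    refine ⟨x 0, Subtype.ext ?_⟩
    change Pi.mulSingle 0 (x 0) = x
    funext i
    refine Fin.cases ?_ (fun j => ?_) i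
    · simp
    · rw [Pi.mulSingle_eq_of_ne (Fin.succ_ne_zero j)]
      exact (congrFun hx j).symm

end Run7.h16.UP
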