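import Pool.Agent.Y563.DC.Prod
import Pool.Agent.N600.UK.Main

/-!
# Kernels of embedding problems over fields of characteristic `p`: closure properties

The proofs are those of the files `N600/UK/Good`, `Main`, with fields of characteristic `p`.
-/

set_option autoImplicit false

namespace Run7.h16.UP

open Pool.Agent.H391R2 (Wr wr_mul_left wr_mul_right wr_inv_left)
open Pool.Agent.H391R2.T4 (RegSol exists_equiv_of_ker finite_wr)
open Pool.Agent.TH59.WX (collapse finite_of_kernel Indec exists_D)
open Pool.Agent.TH444.TW (IsInnerPower RSK inner_rsk RegularOver)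
open Pool.Agent.N600.UK (CL exists_decomp reg_quot snd_rsk center_base conj_inj regularOver_perm)

open Pool.Agent.Y60.DC (GoodKerP)
open Pool.Agent.TH15.IGP (fin_of_inf)

set_option linter.unusedSectionVars false

theorem charP_ratFunc (K : Type) [Field K] (p : ℕ) [CharP K p] : CharP (RatFunc K) p :=
  charP_of_injective_algebraMap (algebraMap K (RatFunc K)).injective p

theorem good_iso {p : ℕ} {T T' : Type} [Group T] [Group T'] (e : T ≃* T') (h : GoodKerP p T) :
    GoodKerP p T' := by
  intro K L X _ _ _ _ _ _ _ _ α hα ⟨f⟩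
  exact h K L X α hα ⟨f.trans e.symm⟩

/-- Direct factors. -/
theorem good_factor {p : ℕ} {A B : Type} [Group A] [Group B] (h : GoodKerP p (A × B)) :
    GoodKerP p A := by
  intro K L X _ _ _ _ _ _ _ _ α hα ⟨f⟩
  let β : X × B →* (L ≃ₐ[K] L) := α.comp (MonoidHom.fst X B)
  have hβ : Function.Surjective β := hα.comp Prod.fst_surjective
  have hker : Nonempty (β.ker ≃* A × B) := by
    let u : A × B →* X × B := ((α.ker.subtype.comp f.symm.toMonoidHom).prodMap (MonoidHom.id B))
    have hu : ∀ p, u p = (((f.symm p.1 : α.ker) : X), p.2) := fun p => rfl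
    have hmem : ∀ p, u p ∈ β.ker := fun p => by
      rw [MonoidHom.mem_ker]
      exact (f.symm p.1).2
    refine ⟨(MulEquiv.ofBijective (u.codRestrict β.ker hmem) ⟨?_, ?_⟩).symm⟩
    · intro p q hpq
      have h1 := congrArg Subtype.val hpq
      change u p = u q at h1
      rw [hu, hu, Prod.mk.injEq] at h1
      exact Prod.ext (f.symm.injective (Subtype.ext h1.1)) h1.2
    · rintro ⟨⟨x, b⟩, hx⟩
      refine ⟨(f ⟨x, hx⟩, b), Subtype.ext ?_⟩
      change u _ = (x, b)
      rw [hu, MulEquiv.symm_apply_apply]
  exact reg_quot α β (MonoidHom.fst X B) Prod.fst_surjective (fun y => rfl)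
    (h K L (X × B) β hβ hker)

/-- Extensions by normal subgroups of the big group. -/
theorem good_step {p : ℕ} {K L X : Type} [Field K] [CharP K p] [Infinite K] [Field L] [Algebra K L]
    [FiniteDimensional K L] [IsGalois K L] [Group X] [Finite X] (α : X →* (L ≃ₐ[K] L))
    (_hα : Function.Surjective α) (X' : Type) [Group X'] (r : X →* X')
    (hr : Function.Surjective r) (δ : X' →* (L ≃ₐ[K] L)) (hδ : ∀ x, δ (r x) = α x)
    (h1 : RegSol K L X' δ) (h2 : GoodKerP p r.ker) : RegSol K L X α := by
  obtain ⟨F', i1, i2, i3, i4, i5, i6, i7, i8, γ', hγ1, hγ2⟩ := h1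
  let β : X →* (F' ≃ₐ[RatFunc K] F') := γ'.symm.toMonoidHom.comp r
  have hβs : Function.Surjective β := γ'.symm.surjective.comp hr
  have hinf : Infinite (RatFunc K) := Infinite.of_injective _ (algebraMap K (RatFunc K)).injective
  have hcr : CharP (RatFunc K) p := charP_ratFunc K p
  have hker : β.ker = r.ker := by
    ext x
    rw [MonoidHom.mem_ker, MonoidHom.mem_ker]
    change γ'.symm (r x) = 1 ↔ r x = 1
    rw [map_eq_one_iff _ γ'.symm.injective]
  exact collapse K L α δ r hδ F' γ' hγ1 hγ2
    (h2 (RatFunc K) F' X β hβs ⟨MulEquiv.subgroupCongr hker⟩)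

/-- Characteristic extensions. -/
theorem good_char {p : ℕ} {T : Type} [Group T] [Finite T] (C : Subgroup T)
    [hC : C.Characteristic] (h1 : GoodKerP p C) (h2 : GoodKerP p (T ⧸ C)) : GoodKerP p T := by
  intro K L X _ _ _ _ _ _ _ _ α hα ⟨e⟩
  have hfinX : Finite X := finite_of_kernel α e.symm
  -- the subgroup of `X`
  let u : T →* X := α.ker.subtype.comp e.symm.toMonoidHom
  have hu : ∀ t, u t = ((e.symm t : α.ker) : X) := fun t => rfl
  have huinj : Function.Injective u := Subtype.val_injective.comp e.symm.injective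
  let N : Subgroup X := C.map u
  have hNle : N ≤ α.ker := by
    rintro _ ⟨t, -, rfl⟩
    exact (e.symm t).2
  have hN : N.Normal := by
    refine ⟨?_⟩
    rintro _ ⟨t, ht, rfl⟩ x
    let a : MulAut T := (MulAut.congr e) (MulAut.conjNormal x)
    have ha : a t ∈ C := by
      have h3 := hC.fixed a
      have h4 : t ∈ C.comap (a : T →* T) := by
        have h5 : C.comap a.toMonoidHom = C := hC.fixed a
        rw [← h5] at ht
        exact ht
      exact h4
    refine ⟨a t, ha, ?_⟩
    have h3 : a t = e (MulAut.conjNormal x (e.symm t)) := rfl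
    rw [hu, h3, MulEquiv.symm_apply_apply, MulAut.conjNormal_apply]
    rfl
  let r : X →* X ⧸ N := QuotientGroup.mk' N
  have hr : Function.Surjective r := QuotientGroup.mk'_surjective N
  let δ : X ⧸ N →* (L ≃ₐ[K] L) := QuotientGroup.lift N α (fun x hx => hNle hx)
  have hδ : ∀ x, δ (r x) = α x := fun x => rfl
  have hδs : Function.Surjective δ := fun τ => by
    obtain ⟨x, hx⟩ := hα τ
    exact ⟨r x, hx⟩
  -- the kernel of `δ`
  have hk : Nonempty (δ.ker ≃* T ⧸ C) := by
    let f : T →* δ.ker := (r.comp u).codRestrict δ.ker (fun t => by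
      rw [MonoidHom.mem_ker]
      change δ (r (u t)) = 1
      rw [hδ]
      exact (e.symm t).2)
    have hf : Function.Surjective f := by
      rintro ⟨x', hx'⟩
      obtain ⟨x, rfl⟩ := hr x'
      rw [MonoidHom.mem_ker, hδ] at hx'
      refine ⟨e ⟨x, hx'⟩, Subtype.ext ?_⟩
      change r (u _) = r x
      rw [hu, MulEquiv.symm_apply_apply]
    have hfk : f.ker = (QuotientGroup.mk' C).ker := by
      rw [QuotientGroup.ker_mk']
      ext t
      rw [MonoidHom.mem_ker]
      constructor
      · intro h
        have h3 : r (u t) = 1 := congrArg Subtype.val h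
        rw [QuotientGroup.mk'_apply, QuotientGroup.eq_one_iff] at h3
        obtain ⟨t', ht', h4⟩ := h3
        rwa [← huinj h4]
      · intro h
        apply Subtype.ext
        change r (u t) = 1
        rw [QuotientGroup.mk'_apply, QuotientGroup.eq_one_iff]
        exact ⟨t, h, rfl⟩
    obtain ⟨E, -⟩ := exists_equiv_of_ker f (QuotientGroup.mk' C) hf
      (QuotientGroup.mk'_surjective C) hfk
    exact ⟨E⟩
  have hrk : GoodKerP p r.ker := by
    have h3 : r.ker = N := QuotientGroup.ker_mk' N
    refine good_iso ?_ h1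
    exact (Subgroup.equivMapOfInjective C u huinj).trans (MulEquiv.subgroupCongr h3.symm)
  exact good_step α hα (X ⧸ N) r hr δ hδ (h2 K L (X ⧸ N) δ hδs hk) hrk

/-- A factor of a product of indecomposable groups. -/
theorem good_component {p : ℕ} {J : Type} [Finite J] {U : J → Type} [∀ j, Group (U j)]
    (h : GoodKerP p (∀ j, U j)) (j₀ : J) : GoodKerP p (U j₀) := by
  classical
  have e : (∀ j, U j) ≃* U j₀ × (∀ j : {j // j ≠ j₀}, U j) :=
    { toFun := fun f => (f j₀, fun j => f j)
      invFun := fun p j => if h : j = j₀ then h ▸ p.1 else p.2 ⟨j, h⟩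
      left_inv := fun f => by
        funext j
        by_cases hj : j = j₀
        · subst hj
          simp
        · simp [hj]
      right_inv := fun p => by
        refine Prod.ext ?_ ?_
        · simp
        · funext j
          simp [j.2]
      map_mul' := fun f g => rfl }
  exact good_factor (good_iso e h)

/-- Products of good groups with trivial centre. -/
theorem good_pi {p : ℕ} (I : Type) [Finite I] (T : I → Type) [∀ i, Group (T i)] [∀ i, Finite (T i)]
    (hC : ∀ i, CL (T i)) (h : ∀ i, GoodKerP p (T i)) : GoodKerP p (∀ i, T i) := by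
  have hd := fun i => exists_decomp _ (T i) (hC i) rfl
  choose J hJ U hU1 hU2 hI hN e using hd
  let S := Σ i, J i
  let V : S → Type := fun p => U p.1 p.2
  have hV : GoodKerP p (∀ q : S, V q) := by
    refine Pool.Agent.Y563.DC.prod_goodP p S V (fun q => hI q.1 q.2) (fun q => hN q.1 q.2) (fun q => ?_)
    exact good_component (good_iso (e q.1).some (h q.1)) q.2
  refine good_iso ?_ hV
  have e1 : (∀ i, T i) ≃* ∀ i, ∀ j : J i, U i j := MulEquiv.piCongrRight fun i => (e i).some
  refine MulEquiv.trans ?_ e1.symm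
  exact
    { toFun := fun f i j => f ⟨i, j⟩
      invFun := fun f p => f p.1 p.2
      left_inv := fun f => rfl
      right_inv := fun f => rfl
      map_mul' := fun f g => rfl }

/-- Complete groups. -/
theorem good_complete {p : ℕ} {T : Type} [Group T] [Finite T] (hC : CL T)
    (hI : ∀ a : MulAut T, ∃ g : T, a = MulAut.conj g)
    (hR : ∀ (K : Type) [Field K] [CharP K p] [Infinite K], RegularOver K T) : GoodKerP p T := by
  intro K L X _ _ _ _ _ _ _ _ α hα ⟨e⟩
  have hfinX : Finite X := finite_of_kernel α e.symm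
  let ι : T ≃* α.ker := e.symm
  let c : X →* MulAut T := (MulAut.congr ι.symm).toMonoidHom.comp MulAut.conjNormal
  have hc : ∀ w : T, c (ι w) = MulAut.conj w := by
    intro w
    apply MulEquiv.ext
    intro x
    change ι.symm (MulAut.conjNormal (ι w : X) (ι x)) = w * x * w⁻¹
    rw [MulEquiv.symm_apply_eq]
    apply Subtype.ext
    rw [MulAut.conjNormal_apply]
    simp only [map_mul, map_inv, Subgroup.coe_mul, Subgroup.coe_inv]
  have hconj : Function.Bijective (MulAut.conj : T →* MulAut T) :=
    ⟨conj_inj hC, fun a => by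
      obtain ⟨g, hg⟩ := hI a
      exact ⟨g, hg.symm⟩⟩
  let E : T ≃* MulAut T := MulEquiv.ofBijective _ hconj
  let π : X →* T := E.symm.toMonoidHom.comp c
  have hπ : ∀ w : T, π (ι w : X) = w := by
    intro w
    change E.symm (c (ι w)) = w
    rw [hc, MulEquiv.symm_apply_eq]
    rfl
  let r : X →* T × (L ≃ₐ[K] L) := π.prod α
  have hr : Function.Bijective r := by
    constructor
    · rw [injective_iff_map_eq_one]
      intro x hx
      have h1 : π x = 1 := congrArg Prod.fst hx
      have h2 : α x = 1 := congrArg Prod.snd hx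
      obtain ⟨w, hw⟩ := ι.surjective ⟨x, h2⟩
      have h3 : (ι w : X) = x := congrArg Subtype.val hw
      rw [← h3, hπ] at h1
      rw [← h3, h1, map_one]
      rfl
    · rintro ⟨p, ρ⟩
      obtain ⟨x₀, rfl⟩ := hα ρ
      refine ⟨(ι (p * (π x₀)⁻¹) : X) * x₀, ?_⟩
      refine Prod.ext ?_ ?_
      · change π _ = p
        rw [map_mul, hπ, inv_mul_cancel_right]
      · change α _ = α x₀
        rw [map_mul]
        have h1 : α (ι (p * (π x₀)⁻¹) : X) = 1 := (ι _).2
        rw [h1, one_mul]
  have hfinΓ : Finite (L ≃ₐ[K] L) := inferInstance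
  have h2 : RegSol K L (T × (L ≃ₐ[K] L)) (MonoidHom.snd _ _) :=
    snd_rsk K T (hR K) (L ≃ₐ[K] L) K L (MulEquiv.refl _)
  exact reg_quot α (MonoidHom.snd _ _) (MulEquiv.ofBijective r hr).symm.toMonoidHom
    (MulEquiv.ofBijective r hr).symm.surjective (fun y => by
      obtain ⟨x, rfl⟩ := (MulEquiv.ofBijective r hr).surjective y
      change α ((MulEquiv.ofBijective r hr).symm (MulEquiv.ofBijective r hr x)) = (r x).2
      rw [MulEquiv.symm_apply_apply]
      rfl) h2


/-- All fields. -/
theorem good_allP {p : ℕ} {T : Type} [Group T] [Finite T] (hT : GoodKerP p T)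
    (K L X : Type) [Field K] [CharP K p] [Field L] [Algebra K L] [FiniteDimensional K L]
    [IsGalois K L] [Group X] (α : X →* (L ≃ₐ[K] L)) (hα : Function.Surjective α)
    (hι : Nonempty (α.ker ≃* T)) : RegSol K L X α := by
  have hfinX : Finite X := finite_of_kernel α hι.some.symm
  rcases finite_or_infinite K with h | h
  · refine fin_of_inf K L X α ?_
    intro M _ _ _ _ γM
    have hinf : Infinite (RatFunc K) := Infinite.of_injective _
      (IsFractionRing.injective (Polynomial K) (RatFunc K))
    have hcr : CharP (RatFunc K) p := charP_ratFunc K p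
    refine hT (RatFunc K) M X _ (γM.symm.surjective.comp hα) ?_
    have hker : (γM.symm.toMonoidHom.comp α).ker = α.ker := by
      ext x
      rw [MonoidHom.mem_ker, MonoidHom.mem_ker]
      change γM.symm (α x) = 1 ↔ α x = 1
      rw [map_eq_one_iff _ γM.symm.injective]
    exact ⟨(MulEquiv.subgroupCongr hker).trans hι.some⟩
  · exact hT K L X α hα hι



end Run7.h16.UP
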