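import Pool.Agent.Run7.h16.UP.Def
import Pool.Agent.Run7.h16.UP.Good
import Pool.Agent.Run7.h16.UP.Base
import Pool.Agent.Y60.DCF.Main

/-!
# The groups of the class are kernels of regularly solvable embedding problems only
-/

set_option autoImplicit false

namespace Run7.h16.UP

open Nfff32c05
open Pool.Agent.H391R2 (Wr isRealizable_of isRealizable_quotient)
open Pool.Agent.H391R2.T4 (RegSol exists_equiv_of_ker finite_wr HilbField)
open Pool.Agent.TH59.WX (finite_of_kernel exists_gal_of)
open Pool.Agent.TH444.TW (RSK RegularOver infinite_ratFunc infinite_of_hilb)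
open Pool.Agent.TH15.IGP (Lim)
open Pool.Agent.TH377.IG (SpecProp spec_ratFunc spec_hilb)
open Pool.Agent.N600.UK (CL Univ ProperSol cl_of_center reg_quot snd_rsk regularOver_of_regSol
  triv_aut)
open Pool.Agent.Y60.DC (GoodKerP CompIn FacC regC_inf ClsC)
open Pool.Agent.Y60.DCF (Factor Step)

set_option linter.unusedSectionVars false

variable {p : ℕ} [Fact p.Prime]

theorem good_comp {T : Type} [Group T] [Finite T] (h : CompIn (Factor p) T) : GoodKerP p T := by
  intro K L X _ _ _ _ _ _ _ _ α hα ⟨e⟩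
  have hfinX : Finite X := finite_of_kernel α e.symm
  refine regC_inf p K L X α hα ?_
  have h1 : CompIn (FacC p) T :=
    Pool.Agent.Y60.DCF.compIn_mono (fun T _ h => Pool.Agent.Y60.DCF.Factor.old T h) h
  exact Pool.Agent.Y419.DC.quot (fun T T' _ _ h h' => FacC.iso p T T' h h')
    (fun T _ h => FacC.simple p T h) h1 _ e.symm.toMonoidHom e.symm.surjective

/-- All powers of such groups. -/
theorem good_comp_pow {T : Type} [Group T] [Finite T] (h : CompIn (Factor p) T) (n : ℕ) :
    GoodKerP p (Fin n → T) := by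
  intro K L X _ _ _ _ _ _ _ _ α hα ⟨e⟩
  have hfinX : Finite X := finite_of_kernel α e.symm
  refine regC_inf p K L X α hα ?_
  have h1 : CompIn (FacC p) T :=
    Pool.Agent.Y60.DCF.compIn_mono (fun T _ h => Pool.Agent.Y60.DCF.Factor.old T h) h
  have h2 : CompIn (FacC p) (Fin n → T) :=
    compIn_pow (fun T T' _ _ h h' => FacC.iso p T T' h h') (fun T _ h => FacC.simple p T h) h1 n
  exact Pool.Agent.Y419.DC.quot (fun T T' _ _ h h' => FacC.iso p T T' h h')
    (fun T _ h => FacC.simple p T h) h2 _ e.symm.toMonoidHom e.symm.surjective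

/-- The symmetric groups. -/
theorem good_perm {n : ℕ} (hn : 7 ≤ n) : GoodKerP p (Equiv.Perm (Fin n)) := by
  refine good_complete (fun z hz => ?_) (aut_inner hn) (fun K _ _ _ =>
    Pool.Agent.N600.UK.regularOver_perm K n)
  exact eq_one_of_cent (by omega) z fun g _ => hz g

/-- Wreath products. -/
theorem good_wreath {T : Type} [Group T] [Finite T] {n : ℕ} (h : GoodKerP p (Fin n → T))
    (hn : 7 ≤ n) : GoodKerP p (Wr T n) := by
  have hfin : Finite (Wr T n) := finite_wr T n
  have hch := base_char (T := T) (by omega : 5 ≤ n)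
  let e1 : (Fin n → T) ≃* (SemidirectProduct.rightHom : Wr T n →* Equiv.Perm (Fin n)).ker :=
    (MonoidHom.ofInjective (f := (SemidirectProduct.inl : (Fin n → T) →* Wr T n))
      SemidirectProduct.inl_injective).trans
      (MulEquiv.subgroupCongr SemidirectProduct.range_inl_eq_ker_rightHom)
  let e2 : Equiv.Perm (Fin n) ≃*
      Wr T n ⧸ (SemidirectProduct.rightHom : Wr T n →* Equiv.Perm (Fin n)).ker :=
    (QuotientGroup.quotientKerEquivOfSurjective _ SemidirectProduct.rightHom_surjective).symm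
  exact good_char (SemidirectProduct.rightHom : Wr T n →* Equiv.Perm (Fin n)).ker
    (good_iso e1 h) (good_iso e2 (good_perm hn))

/-- The properties of the groups of the class. -/
theorem UnivP.main {T : Type} [Group T] (h : UnivP p T) : Finite T ∧ GoodKerP p T := by
  induction h with
  | univ T h =>
    obtain ⟨h1, -, h3⟩ := h.main
    exact ⟨h1, fun K L X _ _ _ _ _ _ _ _ α hα hι => h3 K L X α hα hι⟩
  | comp T h => exact ⟨inferInstance, good_comp h⟩
  | complete T hZ hI hR =>
    exact ⟨inferInstance, good_complete (cl_of_center hZ) hI hR⟩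
  | wreath G h n hn =>
    exact ⟨finite_wr G n, good_wreath (good_comp_pow h n) hn⟩
  | power T hZ h n hn ih =>
    obtain ⟨h1, h3⟩ := ih
    exact ⟨finite_wr T n, good_wreath (good_pi (Fin n) (fun _ => T) (fun _ => cl_of_center hZ)
      (fun _ => h3)) hn⟩
  | prod I T hZ h ih =>
    have h1 : ∀ i, Finite (T i) := fun i => (ih i).1
    exact ⟨inferInstance, good_pi I T (fun i => cl_of_center (hZ i)) (fun i => (ih i).2)⟩
  | factor A B h ih =>
    obtain ⟨h1, h3⟩ := ih
    exact ⟨Finite.of_injective (fun a : A => (a, (1 : B))) (fun a b hab => congrArg Prod.fst hab),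
      good_factor h3⟩
  | extension T C h h' ih ih' =>
    obtain ⟨h1, h3⟩ := ih
    obtain ⟨h4, h6⟩ := ih'
    have hfin : Finite T := Finite.of_subgroup_quotient C
    exact ⟨hfin, good_char C h3 h6⟩
  | iso T T' e h ih =>
    obtain ⟨h1, h3⟩ := ih
    exact ⟨Finite.of_equiv _ e.toEquiv, good_iso e h3⟩

/-- Regular solutions over all fields of characteristic `p`. -/
theorem UnivP.reg {T : Type} [Group T] (h : UnivP p T) (K L X : Type) [Field K] [CharP K p]
    [Field L] [Algebra K L] [FiniteDimensional K L] [IsGalois K L] [Group X]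
    (α : X →* (L ≃ₐ[K] L)) (hα : Function.Surjective α) (hι : Nonempty (α.ker ≃* T)) :
    RegSol K L X α := by
  have hfin : Finite T := h.main.1
  exact good_allP h.main.2 K L X α hα hι

/-- Proper solutions over fields with the specialization property. -/
theorem UnivP.proper {T : Type} [Group T] (h : UnivP p T) (K : Type) [Field K] [CharP K p]
    (hK : SpecProp K) (L X : Type) [Field L] [Algebra K L] [FiniteDimensional K L] [IsGalois K L]
    [Group X] (α : X →* (L ≃ₐ[K] L)) (hα : Function.Surjective α)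
    (hι : Nonempty (α.ker ≃* T)) : ProperSol K L X α := by
  have hfinT : Finite T := h.main.1
  have hfinX : Finite X := finite_of_kernel α hι.some.symm
  obtain ⟨F, i1, i2, i3, i4, i5, i6, i7, i8, γ, hγ, -⟩ := h.reg K L X α hα hι
  exact hK L X α ⟨F, i1, i2, i3, i4, i5, i6, i7, i8, γ, hγ⟩

theorem UnivP.real {T : Type} [Group T] (h : UnivP p T) (K : Type) [Field K] [CharP K p]
    (hK : SpecProp K) (X : Type) [Group X] (N : Subgroup X) [N.Normal]
    (hN : Nonempty (N ≃* T)) (hfin : Finite (X ⧸ N)) :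
    IsRealizable K X ↔ IsRealizable K (X ⧸ N) := by
  have hfinT : Finite T := h.main.1
  have hfinN : Finite N := Finite.of_equiv _ hN.some.symm.toEquiv
  have hfinX : Finite X := Finite.of_subgroup_quotient N
  constructor
  · intro h
    obtain ⟨L, i1, i2, i3, i4, ⟨f⟩⟩ := exists_gal_of K X h
    exact isRealizable_quotient L ((QuotientGroup.mk' N).comp f.symm.toMonoidHom)
      ((QuotientGroup.mk'_surjective N).comp f.symm.surjective)
  · intro h5
    obtain ⟨L, i1, i2, i3, i4, ⟨f⟩⟩ := exists_gal_of K (X ⧸ N) h5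
    let β : X →* (L ≃ₐ[K] L) := f.toMonoidHom.comp (QuotientGroup.mk' N)
    have hβ : Function.Surjective β := f.surjective.comp (QuotientGroup.mk'_surjective N)
    have hker : β.ker = N := by
      ext x
      rw [MonoidHom.mem_ker]
      change f (QuotientGroup.mk' N x) = 1 ↔ x ∈ N
      rw [map_eq_one_iff f f.injective, QuotientGroup.mk'_apply, QuotientGroup.eq_one_iff]
    obtain ⟨F, j1, j2, j3, j4, j5, j6, γ, -⟩ :=
      h.proper K hK L X β hβ ⟨(MulEquiv.subgroupCongr hker).trans hN.some⟩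
    exact isRealizable_of F γ.symm

/-- The groups of the class occur. -/
theorem UnivP.occurs {T : Type} [Group T] (h : UnivP p T) (K : Type) [Field K] [CharP K p]
    (hK : SpecProp K) : IsRealizable K T := by
  have hfinT : Finite T := h.main.1
  obtain ⟨F, j1, j2, j3, j4, j5, j6, γ, -⟩ := h.proper K hK K T 1 (fun σ => ⟨1, triv_aut _ _⟩)
    ⟨(MulEquiv.subgroupCongr (by ext x; simp)).trans Subgroup.topEquiv⟩
  have h34 : j2 = j3 := by
    refine Algebra.algebra_ext _ _ fun x => ?_
    exact (@IsScalarTower.algebraMap_apply K K F _ _ _ _ j3 j2 j4 x)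
  subst h34
  exact isRealizable_of F γ.symm

theorem UnivP.regular_inf {T : Type} [Group T] (h : UnivP p T) (K : Type) [Field K] [CharP K p]
    [Infinite K] (X : Type) [Group X] (N : Subgroup X) [N.Normal]
    (hN : Nonempty (N ≃* T)) (hfin : Finite (X ⧸ N)) (hR : RegSol K K (X ⧸ N) 1) :
    RegSol K K X 1 := by
  have hfinT : Finite T := h.main.1
  have hfinN : Finite N := Finite.of_equiv _ hN.some.symm.toEquiv
  have hfinX : Finite X := Finite.of_subgroup_quotient N
  refine good_step (p := p) 1 (fun σ => ⟨1, triv_aut _ _⟩) (X ⧸ N) (QuotientGroup.mk' N)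
    (QuotientGroup.mk'_surjective N) 1 (fun x => rfl) hR ?_
  exact good_iso (hN.some.symm.trans
    (MulEquiv.subgroupCongr (QuotientGroup.ker_mk' N).symm)) h.main.2

/-- Regular extensions of `K(t)`. -/
theorem UnivP.regular {T : Type} [Group T] (h : UnivP p T) (K : Type) [Field K] [CharP K p]
    (X : Type) [Group X] (N : Subgroup X) [N.Normal]
    (hN : Nonempty (N ≃* T)) (hfin : Finite (X ⧸ N)) :
    RegularOver K X ↔ RegularOver K (X ⧸ N) := by
  have hfinT : Finite T := h.main.1
  have hfinN : Finite N := Finite.of_equiv _ hN.some.symm.toEquiv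
  have hfinX : Finite X := Finite.of_subgroup_quotient N
  constructor
  · intro h1
    refine regularOver_of_regSol ?_
    exact reg_quot 1 1 (QuotientGroup.mk' N) (QuotientGroup.mk'_surjective N) (fun y => rfl)
      (Pool.Agent.TH444.TW.regSol_of_regularOver h1)
  · intro h1
    have h2 := Pool.Agent.TH444.TW.regSol_of_regularOver h1
    rcases finite_or_infinite K with hK | hK
    · have hinf : Infinite (RatFunc K) := Pool.Agent.TH444.TW.infinite_ratFunc K
      have hcr : CharP (RatFunc K) p := charP_ratFunc K p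
      have h3 := Pool.Agent.TH444.TW.reg_base K (RatFunc K) (X ⧸ N) h2
      have h4 := h.regular_inf (RatFunc K) X N hN hfin h3
      refine regularOver_of_regSol (Pool.Agent.TH15.IGP.fin_of_inf K K X 1 ?_)
      intro M _ _ _ _ γM
      have hfinΓ : Finite (K ≃ₐ[K] K) := inferInstance
      have h5 := snd_rsk (RatFunc K) X (regularOver_of_regSol h4) (K ≃ₐ[K] K) (RatFunc K) M γM
      exact reg_quot _ _ (MonoidHom.fst X (K ≃ₐ[K] K)) Prod.fst_surjective (fun y => by
        change γM.symm 1 = γM.symm y.2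
        rw [triv_aut y.2 1]) h5
    · exact regularOver_of_regSol (h.regular_inf K X N hN hfin h2)

/-! ### Towers -/

theorem StepP.main {K : Type} [Field K] [CharP K p] {W W' : Type} [Group W] [Group W']
    {π : W' →* W} (h : StepP p K π) : Finite W → Finite W' ∧ RSK K π := by
  induction h with
  | base π h =>
    intro hW
    exact h.old.main p hW
  | kernel π hs h =>
    intro hW
    obtain ⟨h1, h2⟩ := h.main
    have hW' : Finite _ := Pool.Agent.TH444.TW.finite_of_ker π
    refine ⟨hW', ?_⟩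
    intro K' M _ _ _ _ _ _ _ ε
    have hc : CharP K' p := charP_of_injective_algebraMap (algebraMap K K').injective p
    refine h2 K' M _ _ (ε.symm.surjective.comp hs) ?_
    have h1 : (ε.symm.toMonoidHom.comp π).ker = π.ker := by
      ext x
      rw [MonoidHom.mem_ker, MonoidHom.mem_ker]
      exact map_eq_one_iff ε.symm ε.symm.injective
    exact ⟨MulEquiv.subgroupCongr h1⟩
  | comp π q hp hq ihp ihq =>
    intro hW
    obtain ⟨h1, h2⟩ := ihp hW
    obtain ⟨h3, h4⟩ := ihq h1
    exact ⟨h3, RSK.comp h2 h4⟩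
  | quot π q hq hpq ih =>
    intro hW
    obtain ⟨h1, h2⟩ := ih hW
    exact ⟨Finite.of_surjective q hq, RSK.quot q hq (fun x => rfl) h2⟩

theorem towerP_finite {K : Type} [Field K] [CharP K p] (W : ℕ → Type) [∀ i, Group (W i)]
    (π : ∀ i, W (i + 1) →* W i) (hp : ∀ i, StepP p K (π i)) (h0 : Finite (W 0)) :
    ∀ i, Finite (W i) := by
  intro i
  induction i with
  | zero => exact h0
  | succ i ih => exact ((hp i).main ih).1

/-- Towers over fields with the specialisation property. -/
theorem stepP_spec {K : Type} [Field K] [CharP K p] [Infinite K]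
    (hK : SpecProp K)
    (W : ℕ → Type) [∀ i, Group (W i)] (π : ∀ i, W (i + 1) →* W i) (hp : ∀ i, StepP p K (π i))
    (L : Type) [Field L] [Algebra K L] [FiniteDimensional K L] [IsGalois K L]
    (e₀ : W 0 ≃* (L ≃ₐ[K] L)) :
    ∃ (F : Type) (_ : Field F) (_ : Algebra K F) (_ : Algebra L F) (_ : IsScalarTower K L F)
      (_ : IsGalois K F) (γ : (F ≃ₐ[K] F) ≃* Lim π),
      (∀ i, IsOpen {σ : F ≃ₐ[K] F | (γ σ).1 i = 1}) ∧
      ∀ (σ : F ≃ₐ[K] F) (x : L),
        σ (algebraMap L F x) = algebraMap L F (e₀ ((γ σ).1 0) x) := by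
  have hfin := towerP_finite W π hp (Finite.of_equiv _ e₀.symm.toEquiv)
  exact Pool.Agent.TH377.IG.tower_spec hK W π
    (fun i M _ _ _ _ ε => ((hp i).main (hfin i)).2 K M ε) L e₀

/-- Towers over Hilbertian fields. -/
theorem stepP_hilb {K : Type} [Field K] [CharP K p] (hK : HilbField K)
    (W : ℕ → Type) [∀ i, Group (W i)] (π : ∀ i, W (i + 1) →* W i) (hp : ∀ i, StepP p K (π i))
    (L : Type) [Field L] [Algebra K L] [FiniteDimensional K L] [IsGalois K L]
    (e₀ : W 0 ≃* (L ≃ₐ[K] L)) :
    ∃ (F : Type) (_ : Field F) (_ : Algebra K F) (_ : Algebra L F) (_ : IsScalarTower K L F)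
      (_ : IsGalois K F) (γ : (F ≃ₐ[K] F) ≃* Lim π),
      (∀ i, IsOpen {σ : F ≃ₐ[K] F | (γ σ).1 i = 1}) ∧
      ∀ (σ : F ≃ₐ[K] F) (x : L),
        σ (algebraMap L F x) = algebraMap L F (e₀ ((γ σ).1 0) x) := by
  have := infinite_of_hilb hK
  exact stepP_spec (p := p) (spec_hilb hK) W π hp L e₀

/-- Regular towers over `K(t)`. -/
theorem stepP_regular (K L : Type) [Field K] [CharP K p] [Field L]
    [Algebra K L] [FiniteDimensional K L]
    [IsGalois K L] (W : ℕ → Type) [∀ i, Group (W i)] (π : ∀ i, W (i + 1) →* W i)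
    (hp : ∀ i, StepP p K (π i)) (e₀ : W 0 ≃* (L ≃ₐ[K] L)) :
    ∃ (F : Type) (_ : Field F) (_ : Algebra (RatFunc K) F) (_ : Algebra L F)
      (_ : Algebra K F) (_ : IsScalarTower K (RatFunc K) F) (_ : IsScalarTower K L F)
      (_ : IsGalois (RatFunc K) F) (γ : (F ≃ₐ[RatFunc K] F) ≃* Lim π),
      (∀ i, IsOpen {σ : F ≃ₐ[RatFunc K] F | (γ σ).1 i = 1}) ∧
      (∀ (σ : F ≃ₐ[RatFunc K] F) (x : L),
        σ (algebraMap L F x) = algebraMap L F (e₀ ((γ σ).1 0) x)) ∧
      ∀ y : F, IsAlgebraic L y → y ∈ Set.range (algebraMap L F) := by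
  have hfin := towerP_finite W π hp (Finite.of_equiv _ e₀.symm.toEquiv)
  refine Pool.Agent.TH377.IG.tower_regular K L
    (fun Ω _ _ _ _ _ _ j => Pool.Agent.TH377.IG.regStep K L Ω j) W π (fun i => ?_) e₀
  intro M _ _ _ _ ε
  have := infinite_ratFunc K
  exact ((hp i).main (hfin i)).2 (RatFunc K) M ε

/-- Towers over rational function fields over finite fields. -/
theorem stepP_ratFunc (κ : Type) [Field κ] [Finite κ] [CharP κ p]
    (W : ℕ → Type) [∀ i, Group (W i)] (π : ∀ i, W (i + 1) →* W i)
    (hp : ∀ i, StepP p (RatFunc κ) (π i))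
    (L : Type) [Field L] [Algebra (RatFunc κ) L] [FiniteDimensional (RatFunc κ) L]
    [IsGalois (RatFunc κ) L] (e₀ : W 0 ≃* (L ≃ₐ[RatFunc κ] L)) :
    ∃ (F : Type) (_ : Field F) (_ : Algebra (RatFunc κ) F) (_ : Algebra L F)
      (_ : IsScalarTower (RatFunc κ) L F) (_ : IsGalois (RatFunc κ) F)
      (γ : (F ≃ₐ[RatFunc κ] F) ≃* Lim π),
      (∀ i, IsOpen {σ : F ≃ₐ[RatFunc κ] F | (γ σ).1 i = 1}) ∧
      ∀ (σ : F ≃ₐ[RatFunc κ] F) (x : L),
        σ (algebraMap L F x) = algebraMap L F (e₀ ((γ σ).1 0) x) := by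
  have := infinite_ratFunc κ
  have := charP_ratFunc κ p
  exact stepP_spec (p := p) (spec_ratFunc κ) W π hp L e₀

end Run7.h16.UP
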