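import Pool.Agent.Run7.h16.UP.Base
import Pool.Agent.Y60.DCF.Main

/-!
# The composition factors of finite `p`-groups
-/

set_option autoImplicit false

namespace Run7.h16.UP

open Pool.Agent.Y60.DC (CompIn)
open Pool.Agent.Y60.DCF (Factor)

/-- The class of the groups of order `p`. -/
def OrdP (p : ℕ) (T : Type) [Group T] : Prop := Nat.card T = p

theorem ordP_simple {p : ℕ} [hp : Fact p.Prime] (T : Type) [Group T] (h : OrdP p T) :
    IsSimpleGroup T := by
  have h' : Nat.card T = p := h
  exact isSimpleGroup_of_prime_card h'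

theorem ordP_iso {p : ℕ} (T T' : Type) [Group T] [Group T'] (e : Nonempty (T ≃* T'))
    (h : OrdP p T) : OrdP p T' := by
  have h' : Nat.card T = p := h
  exact (Nat.card_congr e.some.toEquiv).symm.trans h'

theorem compIn_of_card {p : ℕ} [hp : Fact p.Prime] (Z : Type) [Group Z] (h : Nat.card Z = p) :
    CompIn (OrdP p) Z := by
  refine CompIn.ext Z ⊥ (CompIn.one _ inferInstance) ?_
  have h1 : Nat.card (Z ⧸ (⊥ : Subgroup Z)) = Nat.card Z :=
    Nat.card_congr QuotientGroup.quotientBot.toEquiv
  exact h1.trans h

theorem compIn_pgroup {p : ℕ} [hp : Fact p.Prime] (N : ℕ) : ∀ (G : Type) [Group G] [Finite G],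
    Nat.card G = N → IsPGroup p G → CompIn (OrdP p) G := by
  induction N using Nat.strong_induction_on with
  | _ N ih =>
  intro G _ _ hN hG
  by_cases hs : Subsingleton G
  · exact CompIn.one G hs
  · have hnt : Nontrivial G := not_subsingleton_iff_nontrivial.1 hs
    have hc : Nontrivial (Subgroup.center G) := hG.center_nontrivial
    have hcp : IsPGroup p (Subgroup.center G) := hG.to_subgroup _
    obtain ⟨m, hm⟩ := IsPGroup.iff_card.1 hcp
    have hm0 : m ≠ 0 := by
      rintro rfl
      rw [pow_zero] at hm
      have := Finite.one_lt_card (α := Subgroup.center G)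
      omega
    obtain ⟨z, hz⟩ := exists_prime_orderOf_dvd_card' (G := Subgroup.center G) p
      (by rw [hm]; exact dvd_pow_self p hm0)
    let Z : Subgroup G := Subgroup.zpowers (z : G)
    have hZc : Z ≤ Subgroup.center G := by
      rw [Subgroup.zpowers_le]
      exact z.2
    have hZn : Z.Normal := by
      refine ⟨fun x hx g => ?_⟩
      have h1 : x ∈ Subgroup.center G := hZc hx
      have h2 := Subgroup.mem_center_iff.1 h1 g
      rw [h2, mul_inv_cancel_right]
      exact hx
    have hZcard : Nat.card Z = p := by
      change Nat.card (Subgroup.zpowers (z : G)) = p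
      rw [Nat.card_zpowers, Subgroup.orderOf_coe, hz]
    have hlt : Nat.card (G ⧸ Z) < N := by
      have h1 := Subgroup.card_eq_card_quotient_mul_card_subgroup Z
      rw [hZcard, hN] at h1
      have h2 : 0 < Nat.card (G ⧸ Z) := Nat.card_pos
      have h3 := hp.out.two_le
      rw [h1]
      nlinarith
    have h1 := ih _ hlt (G ⧸ Z) rfl (hG.to_quotient Z)
    refine compIn_extn (fun T T' _ _ e h => ordP_iso T T' e h) (fun T _ h => ordP_simple T h) h1 G
      (QuotientGroup.mk' Z) (QuotientGroup.mk'_surjective Z) ?_
    refine compIn_of_card _ ?_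
    rw [QuotientGroup.ker_mk', hZcard]

/-- All composition factors of a finite `p`-group are allowed. -/
theorem compIn_of_pgroup {p : ℕ} [hp : Fact p.Prime] (G : Type) [Group G] [Finite G]
    (hG : IsPGroup p G) : CompIn (Factor p) G :=
  Pool.Agent.Y60.DCF.compIn_mono (fun _ _ h => Or.inl h) (compIn_pgroup _ G rfl hG)

end Run7.h16.UP
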