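import Mathlib

/-!
# The automorphisms of the symmetric group of degree `n ≥ 7` are inner
-/

set_option autoImplicit false

namespace Run7.h16.UP

open Equiv Equiv.Perm Finset

theorem num1 : ∀ j : ℕ, 2 ^ (j + 3) * (j + 4).factorial < (2 * j + 6).factorial := by
  intro j
  induction j with
  | zero => decide
  | succ j ih =>
    have h1 : (2 * (j + 1) + 6).factorial = (2 * j + 8) * ((2 * j + 7) * (2 * j + 6).factorial) := by
      have : 2 * (j + 1) + 6 = (2 * j + 6) + 1 + 1 := by ring
      rw [this, Nat.factorial_succ, Nat.factorial_succ]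
    have h2 : (j + 1 + 4).factorial = (j + 5) * (j + 4).factorial := by
      have : j + 1 + 4 = (j + 4) + 1 := by ring
      rw [this, Nat.factorial_succ]
    rw [h1, h2]
    calc 2 ^ (j + 1 + 3) * ((j + 5) * (j + 4).factorial)
        = (2 * (j + 5)) * (2 ^ (j + 3) * (j + 4).factorial) := by ring
      _ < (2 * (j + 5)) * (2 * j + 6).factorial := Nat.mul_lt_mul_of_pos_left ih (by omega)
      _ ≤ ((2 * j + 8) * (2 * j + 7)) * (2 * j + 6).factorial := by
          apply Nat.mul_le_mul_right
          nlinarith
      _ = _ := by ring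

theorem num2 (n k : ℕ) (hn : 7 ≤ n) (hk : 2 ≤ k) (hkn : 2 * k ≤ n) :
    2 ^ k * k.factorial * (n - 2 * k).factorial < 2 * (n - 2).factorial := by
  obtain ⟨r, hr⟩ : ∃ r, n = 2 * k + r := ⟨n - 2 * k, by omega⟩
  have hpos : 0 < r.factorial := Nat.factorial_pos r
  have e1 : n - 2 * k = r := by omega
  rw [e1]
  rcases Nat.lt_or_ge k 4 with h4 | h4
  · have hk' : k = 2 ∨ k = 3 := by omega
    rcases hk' with rfl | rfl
    · have e2 : n - 2 = (r + 1) + 1 := by omega
      have e3 : (r + 1 + 1).factorial = (r + 1 + 1) * ((r + 1) * r.factorial) := by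
        rw [Nat.factorial_succ, Nat.factorial_succ]
      have h5 : 2 ^ 2 * (2 : ℕ).factorial = 8 := by decide
      rw [e2, e3, h5]
      have h6 : 3 ≤ r := by omega
      have h7 : 20 ≤ (r + 1 + 1) * (r + 1) := by nlinarith
      calc 8 * r.factorial < 40 * r.factorial := Nat.mul_lt_mul_of_pos_right (by norm_num) hpos
        _ ≤ (2 * ((r + 1 + 1) * (r + 1))) * r.factorial := Nat.mul_le_mul_right _ (by omega)
        _ = _ := by ring
    · have e2 : n - 2 = (r + 3) + 1 := by omega
      have e3 : (r + 3 + 1).factorial =
          (r + 3 + 1) * ((r + 2 + 1) * ((r + 1 + 1) * ((r + 1) * r.factorial))) := by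
        rw [Nat.factorial_succ, Nat.factorial_succ, Nat.factorial_succ, Nat.factorial_succ]
      have h5 : 2 ^ 3 * (3 : ℕ).factorial = 48 := by decide
      rw [e2, e3, h5]
      have h6 : 1 ≤ r := by omega
      have h7 : 2 ≤ r + 1 := by omega
      have h8 : 3 ≤ r + 1 + 1 := by omega
      have h9 : 4 ≤ r + 2 + 1 := by omega
      have h10 : 5 ≤ r + 3 + 1 := by omega
      have h11 : 5 * (4 * (3 * 2)) ≤ (r + 3 + 1) * ((r + 2 + 1) * ((r + 1 + 1) * (r + 1))) :=
        Nat.mul_le_mul h10 (Nat.mul_le_mul h9 (Nat.mul_le_mul h8 h7))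
      calc 48 * r.factorial < 240 * r.factorial := Nat.mul_lt_mul_of_pos_right (by norm_num) hpos
        _ ≤ (2 * ((r + 3 + 1) * ((r + 2 + 1) * ((r + 1 + 1) * (r + 1))))) * r.factorial :=
          Nat.mul_le_mul_right _ (by omega)
        _ = _ := by ring
  · obtain ⟨j, rfl⟩ : ∃ j, k = j + 4 := ⟨k - 4, by omega⟩
    have e2 : n - 2 = (2 * j + 6) + r := by omega
    rw [e2]
    have h5 := Nat.le_of_dvd (Nat.factorial_pos _) (Nat.factorial_mul_factorial_dvd_factorial_add
      (2 * j + 6) r)
    have h6 := num1 j
    calc 2 ^ (j + 4) * (j + 4).factorial * r.factorial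
        = 2 * ((2 ^ (j + 3) * (j + 4).factorial) * r.factorial) := by ring
      _ < 2 * ((2 * j + 6).factorial * r.factorial) := by
          have := Nat.mul_lt_mul_of_pos_right h6 hpos
          omega
      _ ≤ _ := Nat.mul_le_mul_left _ h5

variable {n : ℕ}

theorem card_cent (a : MulAut (Perm (Fin n))) (t : Perm (Fin n)) :
    Nat.card (Subgroup.centralizer {a t}) = Nat.card (Subgroup.centralizer {t}) := by
  refine (Nat.card_congr (a.toEquiv.subtypeEquiv fun g => ?_)).symm
  rw [Subgroup.mem_centralizer_singleton_iff, Subgroup.mem_centralizer_singleton_iff]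
  change _ ↔ a g * a t = a t * a g
  rw [← map_mul, ← map_mul, a.injective.eq_iff]

theorem card_cent_repl (s : Perm (Fin n)) (m : ℕ) (hs : s.cycleType = Multiset.replicate (m + 1) 2) :
    Nat.card (Subgroup.centralizer {s}) =
      2 ^ (m + 1) * (m + 1).factorial * (n - 2 * (m + 1)).factorial := by
  rw [Equiv.Perm.nat_card_centralizer, hs]
  simp only [Multiset.sum_replicate, Multiset.prod_replicate, smul_eq_mul, Fintype.card_fin]
  have h1 : (Multiset.replicate (m + 1) 2).toFinset = {2} := by
    rw [Multiset.toFinset_replicate, if_neg (Nat.succ_ne_zero m)]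
  rw [h1, Finset.prod_singleton, Multiset.count_replicate_self, Nat.mul_comm (m + 1) 2]
  ring

theorem isSwap_map (hn : 7 ≤ n) (a : MulAut (Perm (Fin n))) {t : Perm (Fin n)} (ht : t.IsSwap) :
    (a t).IsSwap := by
  have ho : orderOf t = 2 := by
    rw [ht.isCycle.orderOf, card_support_eq_two.2 ht]
  have ho' : orderOf (a t) = 2 := by
    rw [← ho]
    exact orderOf_injective a.toMonoidHom a.injective t
  obtain ⟨m, hm⟩ := cycleType_prime_order (σ := a t) (by rw [ho']; exact Nat.prime_two)
  rw [ho'] at hm
  have ht1 : t.cycleType = Multiset.replicate (0 + 1) 2 := by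
    rw [ht.isCycle.cycleType, card_support_eq_two.2 ht]
    rfl
  have h1 := card_cent a t
  rw [card_cent_repl _ _ hm, card_cent_repl _ _ ht1] at h1
  have hle : 2 * (m + 1) ≤ n := by
    have h2 := (a t).sum_cycleType_le
    rw [hm, Multiset.sum_replicate, Fintype.card_fin, smul_eq_mul] at h2
    omega
  rcases Nat.eq_zero_or_pos m with h0 | h0
  · subst h0
    rw [← card_support_eq_two, ← sum_cycleType, hm]
    rfl
  · exfalso
    have h2 := num2 n (m + 1) hn (by omega) hle
    simp only [zero_add, pow_one, Nat.factorial_one, mul_one] at h1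
    omega

/-- Swaps with a common point that commute are equal. -/
theorem eq_of_comm {u v : Perm (Fin n)} (hu : u.IsSwap) (hv : v.IsSwap) {x : Fin n}
    (hxu : u x ≠ x) (hxv : v x ≠ x) (h : u * v = v * u) : u = v := by
  have hsu : ∀ w : Perm (Fin n), w.IsSwap → w x ≠ x → w = swap x (w x) := by
    rintro w ⟨p, q, hpq, rfl⟩ hx
    by_cases hxp : x = p
    · subst hxp
      rw [swap_apply_left]
    · by_cases hxq : x = q
      · subst hxq
        rw [swap_apply_right, swap_comm]
      · exact absurd (swap_apply_of_ne_of_ne hxp hxq) hx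
  have h1 := hsu u hu hxu
  have h2 := hsu v hv hxv
  by_contra hne
  have hyz : u x ≠ v x := by
    intro h3
    apply hne
    rw [h1, h2, h3]
  have h3 : u (v x) = v (u x) := by
    have := congrArg (fun w : Perm (Fin n) => w x) h
    exact this
  have h4 : u (v x) = v x := by
    rw [h1]
    exact swap_apply_of_ne_of_ne hxv (Ne.symm (by rw [← h1] at *; exact hyz))
  have h5 : v (u x) = u x := by
    rw [h2]
    exact swap_apply_of_ne_of_ne hxu (by rw [← h2] at *; exact hyz)
  rw [h4, h5] at h3
  exact hyz h3.symm

section star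

variable (hn : 7 ≤ n) (a : MulAut (Perm (Fin n)))

include hn

theorem swap_swap (i j : Fin n) (hij : i ≠ j) : (a (swap i j)).IsSwap :=
  isSwap_map hn a ⟨i, j, hij, rfl⟩

/-- Two swaps with exactly one common point have images with exactly one common point. -/
theorem card_inter {i j k : Fin n} (hij : i ≠ j) (hik : i ≠ k) (hjk : j ≠ k) :
    ((a (swap i j)).support ∩ (a (swap i k)).support).card = 1 := by
  have h1 := card_support_eq_two.2 (swap_swap hn a i j hij)
  have h2 := card_support_eq_two.2 (swap_swap hn a i k hik)
  have hne : a (swap i j) ≠ a (swap i k) := by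
    intro h
    have h3 := congrArg (fun w : Perm (Fin n) => w i) (a.injective h)
    simp only [swap_apply_left] at h3
    exact hjk h3
  have hnc : a (swap i j) * a (swap i k) ≠ a (swap i k) * a (swap i j) := by
    intro h
    rw [← map_mul, ← map_mul] at h
    have h3 := congrArg (fun w : Perm (Fin n) => w i) (a.injective h)
    simp only [Perm.mul_apply, swap_apply_left] at h3
    rw [swap_apply_of_ne_of_ne hik.symm hjk.symm, swap_apply_of_ne_of_ne hij.symm hjk] at h3
    exact hjk h3.symm
  have hpos : 0 < ((a (swap i j)).support ∩ (a (swap i k)).support).card := by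
    rw [Finset.card_pos]
    by_contra hem
    rw [Finset.not_nonempty_iff_eq_empty, ← Finset.disjoint_iff_inter_eq_empty,
      ← Equiv.Perm.disjoint_iff_disjoint_support] at hem
    exact hnc hem.commute
  have hlt : ((a (swap i j)).support ∩ (a (swap i k)).support).card < 2 := by
    by_contra hge
    obtain ⟨x, hx⟩ := Finset.card_pos.1 hpos
    -- the supports agree
    have h3 : (a (swap i j)).support ∩ (a (swap i k)).support = (a (swap i j)).support :=
      Finset.eq_of_subset_of_card_le Finset.inter_subset_left (by rw [h1]; omega)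
    have h4 : (a (swap i j)).support ∩ (a (swap i k)).support = (a (swap i k)).support :=
      Finset.eq_of_subset_of_card_le Finset.inter_subset_right (by rw [h2]; omega)
    have h5 : (a (swap i j)).support = (a (swap i k)).support := h3.symm.trans h4
    apply hne
    obtain ⟨p, q, hpq, hu⟩ := swap_swap hn a i j hij
    obtain ⟨r, s, hrs, hv⟩ := swap_swap hn a i k hik
    rw [hu, hv, support_swap hpq, support_swap hrs] at h5
    rw [hu, hv]
    have hp : p ∈ ({r, s} : Finset (Fin n)) := by rw [← h5]; simp
    have hq : q ∈ ({r, s} : Finset (Fin n)) := by rw [← h5]; simp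
    simp only [Finset.mem_insert, Finset.mem_singleton] at hp hq
    rcases hp with rfl | rfl
    · rcases hq with rfl | rfl
      · exact absurd rfl hpq
      · rfl
    · rcases hq with rfl | rfl
      · exact swap_comm _ _
      · exact absurd rfl hpq
  omega

omit hn in
/-- no pair meets the three sides of a triangle in exactly one point each -/
theorem no_triangle {x y z : Fin n} (hxy : x ≠ y) (hxz : x ≠ z) (hyz : y ≠ z)
    (S : Finset (Fin n)) (h1 : (S ∩ {x, y}).card = 1) (h2 : (S ∩ {x, z}).card = 1)
    (h3 : (S ∩ {y, z}).card = 1) : False := by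
  have key : ∀ u v : Fin n, u ≠ v → (S ∩ {u, v}).card = 1 → ((u ∈ S ∧ v ∉ S) ∨ (u ∉ S ∧ v ∈ S)) := by
    intro u v huv h
    obtain ⟨w, hw⟩ := Finset.card_eq_one.1 h
    have hu : u ∈ S ↔ u = w := by
      have := Finset.ext_iff.1 hw u
      simp only [Finset.mem_inter, Finset.mem_insert, true_or, and_true,
        Finset.mem_singleton] at this
      exact this
    have hv : v ∈ S ↔ v = w := by
      have := Finset.ext_iff.1 hw v
      simp only [Finset.mem_inter, Finset.mem_insert, or_true, and_true,
        Finset.mem_singleton] at this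
      exact this
    have hw' : w ∈ S ∩ {u, v} := by rw [hw]; simp
    simp only [Finset.mem_inter, Finset.mem_insert, Finset.mem_singleton] at hw'
    rcases hw'.2 with h4 | h4
    · left
      exact ⟨hu.2 h4.symm, fun h5 => huv (h4.symm.trans (hv.1 h5).symm)⟩
    · right
      exact ⟨fun h5 => huv ((hu.1 h5).trans h4), hv.2 h4.symm⟩
  have k1 := key x y hxy h1
  have k2 := key x z hxz h2
  have k3 := key y z hyz h3
  tauto

/-- The common point. -/
theorem exists_common (i : Fin n) : ∃ x : Fin n, ∀ l, i ≠ l → a (swap i l) x ≠ x := by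
  -- choose two other points
  obtain ⟨j, hij⟩ : ∃ j : Fin n, i ≠ j := by
    by_contra h
    push Not at h
    have h1 : (Finset.univ : Finset (Fin n)) ⊆ {i} := fun l _ => by
      rw [Finset.mem_singleton]
      exact (h l).symm
    have h2 := Finset.card_le_card h1
    rw [Finset.card_univ, Fintype.card_fin, Finset.card_singleton] at h2
    omega
  obtain ⟨k, hk⟩ : ∃ k : Fin n, k ∉ ({i, j} : Finset (Fin n)) := by
    by_contra h
    push Not at h
    have h1 : (Finset.univ : Finset (Fin n)) ⊆ {i, j} := fun l _ => h l
    have h2 := (Finset.card_le_card h1).trans Finset.card_le_two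
    rw [Finset.card_univ, Fintype.card_fin] at h2
    omega
  simp only [Finset.mem_insert, Finset.mem_singleton, not_or] at hk
  obtain ⟨hki, hkj⟩ := hk
  have hc := card_inter hn a hij (Ne.symm hki) (Ne.symm hkj)
  obtain ⟨x, hx⟩ := Finset.card_eq_one.1 hc
  have hxm : x ∈ (a (swap i j)).support ∩ (a (swap i k)).support := by rw [hx]; simp
  rw [Finset.mem_inter, mem_support, mem_support] at hxm
  obtain ⟨hxj, hxk⟩ := hxm
  -- the two supports
  have hsup : ∀ l, i ≠ l → a (swap i l) x ≠ x →
      (a (swap i l)).support = {x, a (swap i l) x} := by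
    intro l hl hxl
    obtain ⟨p, q, hpq, hu⟩ := swap_swap hn a i l hl
    rw [hu] at hxl ⊢
    rw [support_swap hpq]
    by_cases hxp : x = p
    · subst hxp
      rw [swap_apply_left]
    · by_cases hxq : x = q
      · subst hxq
        rw [swap_apply_right, Finset.pair_comm]
      · exact absurd (swap_apply_of_ne_of_ne hxp hxq) hxl
  set y := a (swap i j) x with hy
  set z := a (swap i k) x with hz
  have hSj : (a (swap i j)).support = {x, y} := hsup j hij hxj
  have hSk : (a (swap i k)).support = {x, z} := hsup k (Ne.symm hki) hxk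
  have hyz : y ≠ z := by
    intro h
    rw [hSj, hSk, h, Finset.inter_self, Finset.card_pair (Ne.symm hxk)] at hc
    omega
  refine ⟨x, fun l hl hxl => ?_⟩
  have hlj : l ≠ j := by rintro rfl; exact hxj hxl
  have hlk : l ≠ k := by rintro rfl; exact hxk hxl
  -- the support of the third one is `{y, z}`
  have hxS : x ∉ (a (swap i l)).support := by rw [mem_support, not_not]; exact hxl
  have h1 := card_inter hn a hl hij hlj
  have h2 := card_inter hn a hl (Ne.symm hki) hlk
  rw [hSj] at h1
  rw [hSk] at h2
  have hyS : y ∈ (a (swap i l)).support := by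
    obtain ⟨w, hw⟩ := Finset.card_eq_one.1 h1
    have hw' : w ∈ (a (swap i l)).support ∩ {x, y} := by rw [hw]; simp
    simp only [Finset.mem_inter, Finset.mem_insert, Finset.mem_singleton] at hw'
    rcases hw'.2 with rfl | rfl
    · exact absurd hw'.1 hxS
    · exact hw'.1
  have hzS : z ∈ (a (swap i l)).support := by
    obtain ⟨w, hw⟩ := Finset.card_eq_one.1 h2
    have hw' : w ∈ (a (swap i l)).support ∩ {x, z} := by rw [hw]; simp
    simp only [Finset.mem_inter, Finset.mem_insert, Finset.mem_singleton] at hw'
    rcases hw'.2 with rfl | rfl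
    · exact absurd hw'.1 hxS
    · exact hw'.1
  have hSl : (a (swap i l)).support = {y, z} := by
    refine (Finset.eq_of_subset_of_card_le ?_ ?_).symm
    · intro w hw
      simp only [Finset.mem_insert, Finset.mem_singleton] at hw
      rcases hw with rfl | rfl
      · exact hyS
      · exact hzS
    · rw [card_support_eq_two.2 (swap_swap hn a i l hl), Finset.card_pair hyz]
  -- a fifth point
  obtain ⟨m, hm⟩ : ∃ m : Fin n, m ∉ ({i, j, k, l} : Finset (Fin n)) := by
    by_contra h
    push Not at h
    have h1 : (Finset.univ : Finset (Fin n)) ⊆ {i, j, k, l} := fun l _ => h l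
    have h2 := (Finset.card_le_card h1).trans Finset.card_le_four
    rw [Finset.card_univ, Fintype.card_fin] at h2
    omega
  simp only [Finset.mem_insert, Finset.mem_singleton, not_or] at hm
  obtain ⟨hmi, hmj, hmk, hml⟩ := hm
  have k1 := card_inter hn a (Ne.symm hmi) hij hmj
  have k2 := card_inter hn a (Ne.symm hmi) (Ne.symm hki) hmk
  have k3 := card_inter hn a (Ne.symm hmi) hl hml
  rw [hSj] at k1
  rw [hSk] at k2
  rw [hSl] at k3
  exact no_triangle (Ne.symm hxj) (Ne.symm hxk) hyz _ k1 k2 k3

/-- **The automorphisms are inner.** -/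
theorem aut_inner : ∃ g : Perm (Fin n), a = MulAut.conj g := by
  choose f hf using exists_common hn a
  have hinj : Function.Injective f := by
    intro i j h
    by_contra hij
    obtain ⟨k, hk⟩ : ∃ k : Fin n, k ∉ ({i, j} : Finset (Fin n)) := by
      by_contra h
      push Not at h
      have h1 : (Finset.univ : Finset (Fin n)) ⊆ {i, j} := fun l _ => h l
      have h2 := (Finset.card_le_card h1).trans Finset.card_le_two
      rw [Finset.card_univ, Fintype.card_fin] at h2
      omega
    obtain ⟨l, hl⟩ : ∃ l : Fin n, l ∉ ({i, j, k} : Finset (Fin n)) := by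
      by_contra h
      push Not at h
      have h1 : (Finset.univ : Finset (Fin n)) ⊆ {i, j, k} := fun l _ => h l
      have h2 := (Finset.card_le_card h1).trans Finset.card_le_three
      rw [Finset.card_univ, Fintype.card_fin] at h2
      omega
    simp only [Finset.mem_insert, Finset.mem_singleton, not_or] at hk hl
    obtain ⟨hki, hkj⟩ := hk
    obtain ⟨hli, hlj, hlk⟩ := hl
    have hcomm : a (swap i k) * a (swap j l) = a (swap j l) * a (swap i k) := by
      rw [← map_mul, ← map_mul]
      congr 1
      exact (Equiv.Perm.Disjoint.commute (by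
        rw [disjoint_iff_disjoint_support, support_swap (Ne.symm hki),
          support_swap (Ne.symm hlj), Finset.disjoint_left]
        intro w hw hw'
        simp only [Finset.mem_insert, Finset.mem_singleton] at hw hw'
        rcases hw with rfl | rfl
        · rcases hw' with h3 | h3
          · exact hij h3
          · exact hli h3.symm
        · rcases hw' with h3 | h3
          · exact hkj h3
          · exact hlk h3.symm))
    have h1 := hf i k (Ne.symm hki)
    have h2 := hf j l (Ne.symm hlj)
    rw [← h] at h2
    have h3 := eq_of_comm (swap_swap hn a i k (Ne.symm hki)) (swap_swap hn a j l (Ne.symm hlj))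
      h1 h2 hcomm
    have h4 := congrArg (fun w : Perm (Fin n) => w i) (a.injective h3)
    simp only [swap_apply_left] at h4
    rw [swap_apply_of_ne_of_ne hij (Ne.symm hli)] at h4
    exact hki h4
  let g : Perm (Fin n) := Equiv.ofBijective f (Finite.injective_iff_bijective.1 hinj)
  have hg : ∀ i, g i = f i := fun i => rfl
  refine ⟨g, MulEquiv.ext fun w => ?_⟩
  induction w using swap_induction_on with
  | one => rw [map_one, map_one]
  | swap_mul w i j hij ih =>
    rw [map_mul, map_mul, ih]
    congr 1
    rw [MulAut.conj_apply]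
    have h1 := hf i j hij
    have h2 := hf j i (Ne.symm hij)
    rw [swap_comm j i] at h2
    have h3 : a (swap i j) = swap (f i) (f j) := by
      obtain ⟨p, q, hpq, hu⟩ := swap_swap hn a i j hij
      rw [hu] at h1 h2 ⊢
      have k1 : f i = p ∨ f i = q := by
        by_contra hc
        push Not at hc
        exact h1 (swap_apply_of_ne_of_ne hc.1 hc.2)
      have k2 : f j = p ∨ f j = q := by
        by_contra hc
        push Not at hc
        exact h2 (swap_apply_of_ne_of_ne hc.1 hc.2)
      have k3 : f i ≠ f j := fun h => hij (hinj h)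
      rcases k1 with k1 | k1
      · rcases k2 with k2 | k2
        · exact absurd (k1.trans k2.symm) k3
        · rw [k1, k2]
      · rcases k2 with k2 | k2
        · rw [k1, k2, swap_comm]
        · exact absurd (k1.trans k2.symm) k3
    rw [h3, mul_swap_eq_swap_mul, hg, hg, mul_inv_cancel_right]

end star

end Run7.h16.UP
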