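import Pool.Agent.N600.UK.Defs
import Pool.Agent.Y60.DCF.Defs

/-!
# A class of groups and a class of homomorphisms in characteristic `p`

`UnivP p` is the smallest class of groups which
* contains the class `Univ` of the file `N600/UK/Defs` (which has nothing to do with `p`),
* contains all finite groups all of whose composition factors satisfy `Factor p` (file
  `Y60/DCF/Defs`): they have order `p`, or are isomorphic to certain simple groups of Lie type of
  characteristic `p` (for example `PSL_2(p ^ k)`, `k` odd or `p = 2`),
* contains the finite groups with trivial centre all of whose automorphisms are inner which are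
  Galois groups of regular extensions of `K(t)` for all infinite fields `K` of characteristic `p`,
* contains `G ≀ S_n` for ALL finite groups `G` all of whose composition factors satisfy `Factor p`
  (for example all finite `p`-groups) and all `n ≥ 7`,
* contains `T ≀ S_n` for all `n ≥ 7` if it contains the group `T` and the centre of `T` is trivial,
* contains the direct product of finitely many groups with trivial centre which it contains, and the
  direct factors of the groups which it contains,
* is closed under characteristic extensions: it contains `T` if it contains `C` and `T / C` for a
  characteristic subgroup `C` of `T`,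
* is closed under isomorphisms.

`StepP p K` is the smallest class of homomorphisms of groups which contains the class `Step p K` of
the file `Y60/DCF/Defs` and all epimorphisms whose kernel belongs to `UnivP p`, and is closed under
compositions and quotients.
-/

set_option autoImplicit false

open Pool.Agent.H391R2 (Wr)
open Pool.Agent.TH444.TW (RegularOver)
open Pool.Agent.N600.UK (Univ)
open Pool.Agent.Y60.DC (CompIn)
open Pool.Agent.Y60.DCF (Factor Step)

namespace Run7.h16.UP

/-- The class of groups. -/
inductive UnivP (p : ℕ) [Fact p.Prime] : ∀ (T : Type) [Group T], Prop
  /-- the class `Univ` -/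
  | univ (T : Type) [Group T] (h : Univ T) : UnivP p T
  /-- composition factors of characteristic `p` -/
  | comp (T : Type) [Group T] [Finite T] (h : CompIn (Factor p) T) : UnivP p T
  /-- complete groups -/
  | complete (T : Type) [Group T] [Finite T] (hZ : Subgroup.center T = ⊥)
      (hI : ∀ a : MulAut T, ∃ g : T, a = MulAut.conj g)
      (hR : ∀ (K : Type) [Field K] [CharP K p] [Infinite K], RegularOver K T) : UnivP p T
  /-- wreath products of groups with composition factors of characteristic `p` -/
  | wreath (G : Type) [Group G] [Finite G] (h : CompIn (Factor p) G) (n : ℕ) (hn : 7 ≤ n) :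
      UnivP p (Wr G n)
  /-- wreath products of groups of the class with trivial centre -/
  | power (T : Type) [Group T] (hZ : Subgroup.center T = ⊥) (h : UnivP p T) (n : ℕ)
      (hn : 7 ≤ n) : UnivP p (Wr T n)
  /-- direct products -/
  | prod (I : Type) [Finite I] (T : I → Type) [∀ i, Group (T i)]
      (hZ : ∀ i, Subgroup.center (T i) = ⊥) (h : ∀ i, UnivP p (T i)) : UnivP p (∀ i, T i)
  /-- direct factors -/
  | factor (A B : Type) [Group A] [Group B] (h : UnivP p (A × B)) : UnivP p A
  /-- characteristic extensions -/
  | extension (T : Type) [Group T] (C : Subgroup T) [C.Characteristic] (h : UnivP p C)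
      (h' : UnivP p (T ⧸ C)) : UnivP p T
  /-- isomorphic groups -/
  | iso (T T' : Type) [Group T] [Group T'] (e : T ≃* T') (h : UnivP p T) : UnivP p T'

/-- The class of homomorphisms. -/
inductive StepP (p : ℕ) [Fact p.Prime] (K : Type) [Field K] :
    ∀ {W W' : Type} [Group W] [Group W'], (W' →* W) → Prop
  /-- the class `Step p K` -/
  | base {W W' : Type} [Group W] [Group W'] (π : W' →* W) (h : Step p K π) : StepP p K π
  /-- all epimorphisms (split or not) whose kernel belongs to `UnivP p` -/
  | kernel {W W' : Type} [Group W] [Group W'] (π : W' →* W) (hs : Function.Surjective π)
      (h : UnivP p π.ker) : StepP p K π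
  /-- compositions -/
  | comp {W W' W'' : Type} [Group W] [Group W'] [Group W''] (π : W' →* W) (q : W'' →* W')
      (hp : StepP p K π) (hq : StepP p K q) : StepP p K (π.comp q)
  /-- quotients -/
  | quot {W W' W'' : Type} [Group W] [Group W'] [Group W''] (π : W' →* W) (q : W'' →* W')
      (hq : Function.Surjective q) (hpq : StepP p K (π.comp q)) : StepP p K π

end Run7.h16.UP
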